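import Pool.Agent.helper60.DB.SpecF

/-!
Row bf:CZ (MP_fb2c2a_nt).
-/

namespace Pool.Agent.helper60.DB

open Polynomial Finset Pool.Agent.helper60.DK

theorem CZ_aeval {R : Type} [CommRing R] (P : ℤ[X]) (n : ℤ) :
    aeval (n : R) P = ((P.eval n : ℤ) : R) := by
  have h := Polynomial.aeval_algebraMap_apply_eq_algebraMap_eval (A := R) n P
  simpa [eq_intCast] using h

theorem CZ_sub {R : Type} [CommRing R] (P : ℤ[X]) (x y d : R) (h : d ∣ x - y) :
    d ∣ aeval x P - aeval y P := by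
  have h1 := Polynomial.sub_dvd_eval_sub x y (P.map (algebraMap ℤ R))
  rw [Polynomial.eval_map_algebraMap, Polynomial.eval_map_algebraMap] at h1
  exact h.trans h1

theorem CZ_notdvd (p : ℕ) (hp : 7 ≤ p) (n : ℤ) (h0 : 0 < n) (h1 : n < 7) : ¬ (p : ℤ) ∣ n := by
  intro h
  have := Int.le_of_dvd h0 h
  omega

theorem CZ_leg48 (p : ℕ) [Fact p.Prime] (hp : 7 ≤ p) : legendreSym p 48 = legendreSym p 3 := by
  have h4 : ((4 : ℤ) : ZMod p) ≠ 0 := by
    intro h
    rw [ZMod.intCast_zmod_eq_zero_iff_dvd] at h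
    exact CZ_notdvd p hp 4 (by norm_num) (by norm_num) h
  have h := legendreSym.mul p (4 ^ 2) 3
  rw [legendreSym.sq_one' p h4, one_mul] at h
  have e : ((4 : ℤ) ^ 2 * 3) = 48 := by norm_num
  rw [e] at h
  exact h

theorem CZ_frob (k : Type) [Field k] (p : ℕ) [Fact p.Prime] [CharP k p] (F U : k)
    (h : 2 * F = 1 + U) : 2 * F ^ p = 1 + U ^ p := by
  have h1 : frobenius k p (2 * F) = frobenius k p (1 + U) := by rw [h]
  rw [map_mul, map_add, map_one, map_ofNat, frobenius_def, frobenius_def] at h1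
  exact h1

/-- from the ring to the integers -/
theorem CZ_down (h2 : IZ_stmt) (R k : Type) [CommRing R] [IsDomain R] [CharZero R] [Field k] (p : ℕ)
    [Fact p.Prime] [CharP k p] (q : R →+* k) (hL : Loc p q) (n m : ℤ) (z : R)
    (h : (n : R) = (m : R) + (p : R) ^ 2 * z) : (p : ℤ) ^ 2 ∣ n - m := by
  apply (h2 R k p q hL).2
  refine ⟨z, ?_⟩
  push_cast
  rw [h]
  ring

theorem CZ (h1 : WT_stmt) (h2 : IZ_stmt) (h3 : FR_stmt) (h4 : L5_stmt) (h5 : CP_stmt) (h6 : CQ_stmt)
    (h7 : NP_stmt) (h8 : NQ_stmt) : CZ_stmt := by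
  intro p hpF hp t a b ht
  obtain ⟨R, k, iR, iD, iC, iF, iP, q, hL, hsq⟩ := h1 p (by omega)
  have hIZ := h2 R k p q hL
  have q5 : q (5 : R) ≠ 0 := by
    intro h
    have h' : q (((5 : ℤ)) : R) = 0 := by push_cast; exact h
    exact CZ_notdvd p hp 5 (by norm_num) (by norm_num) ((hIZ.1 5).1 h')
  have q3 : q (-3 : R) ≠ 0 := by
    intro h
    have h' : q (((3 : ℤ)) : R) = 0 := by
      push_cast
      rw [map_neg, neg_eq_zero] at h
      exact h
    exact CZ_notdvd p hp 3 (by norm_num) (by norm_num) ((hIZ.1 3).1 h')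
  have q2 : q (2 : R) ≠ 0 := by
    intro h
    have h' : q (((2 : ℤ)) : R) = 0 := by push_cast; exact h
    exact CZ_notdvd p hp 2 (by norm_num) (by norm_num) ((hIZ.1 2).1 h')
  have k2 : (2 : k) ≠ 0 := by
    intro h
    apply q2
    rw [map_ofNat]
    exact h
  obtain ⟨u, hu⟩ := hsq 5 q5
  obtain ⟨v, hv⟩ := hsq (-3) q3
  obtain ⟨c, hc⟩ := (hL.unit 2 q2).exists_right_inv
  obtain ⟨f, hf⟩ : ∃ f : R, f = (1 + u) * c := ⟨_, rfl⟩
  have hff : f ^ 2 = f + 1 := by
    rw [hf]
    linear_combination c ^ 2 * hu + ((3 + u) * c + 1) * hc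
  have h2f : 2 * f = 1 + u := by
    rw [hf]
    linear_combination (1 + u) * hc
  have h2qf : 2 * q f = 1 + q u := by
    have := congrArg q h2f
    rw [map_mul, map_add, map_one, map_ofNat] at this
    exact this
  have hFp := CZ_frob k p (q f) (q u) h2qf
  obtain ⟨x, hx⟩ : ∃ x : R, 16 * x = -1 := by
    refine ⟨-(c ^ 4), ?_⟩
    linear_combination (-(1 + 2 * c + 4 * c ^ 2 + 8 * c ^ 3)) * hc
  have hqu : (q u) ^ 2 = ((5 : ℤ) : k) := by
    rw [← map_pow, hu, map_ofNat]
    norm_num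
  have hUp := h3 k p (by omega) 5 (q u) hqu
  have h16 : IsUnit (16 : R) := by
    have : IsUnit ((2 : R) ^ 4) := (hL.unit 2 q2).pow 4
    have e : ((2 : R) ^ 4) = 16 := by norm_num
    rwa [e] at this
  have htx : (p : R) ^ 2 ∣ (t : R) - x := by
    obtain ⟨s, hs⟩ := ht
    have hs' : (16 : R) * (t : R) + 1 = (p : R) ^ 2 * (s : R) := by
      have := congrArg (fun n : ℤ => (n : R)) hs
      push_cast at this
      exact this
    have hd : (p : R) ^ 2 ∣ 16 * ((t : R) - x) := ⟨s, by linear_combination hs' - hx⟩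
    exact (h16.dvd_mul_left).1 hd
  have hdt : (p : R) ^ 2 ∣ aeval (t : R) (DA.St p) - aeval x (DA.St p) := CZ_sub _ _ _ _ htx
  obtain ⟨s, hs⟩ := hdt
  rw [CZ_aeval] at hs
  have hm4 : aeval (-4 : R) (DA.St p) = (((DA.St p).eval (-4) : ℤ) : R) := by
    rw [← CZ_aeval]
    push_cast
    rfl
  have h48 := CZ_leg48 p hp
  refine ⟨fun hab => ?_, fun hab => ?_⟩
  · obtain ⟨l5, l3, l11⟩ := (h4 p hp a b).1 hab
    rw [l5] at hUp
    have hUp' : q u ^ p = q u := by
      rw [hUp]
      push_cast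
      ring
    have hfp : q f ^ p = q f := by
      apply mul_left_cancel₀ k2
      rw [hFp, hUp', h2qf]
    obtain ⟨z, hz⟩ := h5 R k p q hL hp l11 u v a b hu hv hUp' hab
    obtain ⟨z', hz'⟩ := h7 R k p q hL hp l11 f v x a b hff hv hfp hx hab
    rw [h48] at hz'
    rw [l3] at hz
    constructor
    · apply CZ_down h2 R k p q hL _ _ z
      rw [← hm4, hz]
      push_cast
      ring
    · apply CZ_down h2 R k p q hL _ _ (s + z')
      push_cast
      linear_combination hs + hz'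
  · obtain ⟨l5, l3, l11⟩ := (h4 p hp a b).2 hab
    rw [l5] at hUp
    have hUp' : q u ^ p = -q u := by
      rw [hUp]
      push_cast
      ring
    have hfp : q f ^ p = 1 - q f := by
      apply mul_left_cancel₀ k2
      rw [hFp, hUp']
      linear_combination h2qf
    obtain ⟨z, hz⟩ := h6 R k p q hL hp l11 u v a b hu hv hUp' hab
    obtain ⟨z', hz'⟩ := h8 R k p q hL hp l11 f v x a b hff hv hfp hx hab
    rw [h48] at hz'
    rw [l3] at hz
    constructor
    · apply CZ_down h2 R k p q hL _ _ z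
      rw [← hm4, hz]
      push_cast
      ring
    · apply CZ_down h2 R k p q hL _ _ (s + z')
      push_cast
      linear_combination hs + hz'

end Pool.Agent.helper60.DB
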