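import Pool.Agent.helper60.DB.SpecI
import Pool.Agent.helper32.DA.ST

/-!
# Row bi:SC: the coefficient of `X^(3h)` in `S_p` modulo `p^2`
-/

set_option autoImplicit false

namespace Pool.Agent.helper60.DB

open Polynomial Finset Pool.Agent.helper60.DK

theorem SC_natDegree (k : ℕ) : (Dz k).natDegree ≤ k := by
  rw [natDegree_le_iff_coeff_eq_zero]
  intro j hj
  rw [coeff_Dz', dc_of_lt hj]

theorem SC_top (h : ℕ) : (Dz h ^ 3).coeff (3 * h) = c3 h := by
  have h1 : (Dz h ^ 3).coeff (3 * h) = (Dz h).coeff h ^ 3 :=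
    coeff_pow_of_natDegree_le (SC_natDegree h)
  rw [h1, coeff_Dz']
  unfold dc c3
  rw [Nat.choose_self, one_mul, Nat.centralBinom]
  have : h + h = 2 * h := by ring
  rw [this]

theorem SC_cube {p : ℕ} [hp : Fact p.Prime] (h5 : 5 ≤ p) (k : ℕ) (hk : k < p) (hne : k ≠ hh p) :
    (p : ℤ) ^ 2 ∣ (Dz k ^ 3).coeff (3 * hh p) := by
  have h2 := two_hh (p := p) h5
  rcases lt_or_gt_of_ne hne with h | h
  · have h3 : (Dz k ^ 3).natDegree ≤ 3 * k := natDegree_pow_le_of_le 3 (SC_natDegree k)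
    rw [coeff_eq_zero_of_natDegree_lt (by omega)]
    exact dvd_zero _
  · obtain ⟨E, F, hE, hF, hD⟩ := DA.ST_split (p := p) k hk
    have e : Dz k ^ 3 = (E ^ 3 + C (3 * (p : ℤ)) * (E ^ 2 * F)) +
        C ((p : ℤ) ^ 2) * (3 * (E * F ^ 2) + C (p : ℤ) * F ^ 3) := by
      rw [hD]
      simp only [C_mul, C_pow]
      have : (C (3 : ℤ) : ℤ[X]) = 3 := rfl
      rw [this]
      ring
    have h3 : (E ^ 3).natDegree ≤ 3 * (p - 1 - k) := natDegree_pow_le_of_le 3 hE
    have h4 : (E ^ 2).natDegree ≤ 2 * (p - 1 - k) := natDegree_pow_le_of_le 2 hE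
    have h5 : (E ^ 2 * F).natDegree ≤ 2 * (p - 1 - k) + k := natDegree_mul_le_of_le h4 hF
    rw [e, coeff_add, coeff_add, coeff_C_mul, coeff_C_mul,
      coeff_eq_zero_of_natDegree_lt (by omega : (E ^ 3).natDegree < 3 * hh p),
      coeff_eq_zero_of_natDegree_lt (by omega : (E ^ 2 * F).natDegree < 3 * hh p)]
    rw [mul_zero, add_zero, zero_add]
    exact dvd_mul_right _ _

theorem SC_sign (q : ℤ[X]) (k i : ℕ) : ((-1) ^ k * q).coeff i = (-1) ^ k * q.coeff i := by
  rcases neg_one_pow_eq_or ℤ[X] k with h4 | h4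
  · have h5 : ((-1 : ℤ)) ^ k = 1 := by
      have h6 := congrArg (eval (0 : ℤ)) h4
      simpa using h6
    rw [h4, h5, one_mul, one_mul]
  · have h5 : ((-1 : ℤ)) ^ k = -1 := by
      have h6 := congrArg (eval (0 : ℤ)) h4
      simpa using h6
    rw [h4, h5, neg_one_mul, neg_one_mul, coeff_neg]

theorem SC : SC_stmt := by
  intro p hp h5
  have h2 := two_hh (p := p) h5
  have hSt : (DA.St p).coeff (3 * hh p) = (Sz p).coeff (3 * hh p) := by
    have h3 : (DA.St p).coeff (3 * hh p)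
        = if 3 * hh p < 3 * hh p + 1 then (Sz p).coeff (3 * hh p) else 0 :=
      DA.ST_coeff _ (fun j => (Sz p).coeff j) (3 * hh p)
    rw [h3, if_pos (by omega)]
  have hmem : hh p ∈ range p := mem_range.mpr (by omega)
  have hS : (Sz p).coeff (3 * hh p) = ∑ k ∈ range p, (-1) ^ k * (Dz k ^ 3).coeff (3 * hh p) := by
    unfold Sz
    rw [finsetSum_coeff]
    exact sum_congr rfl fun k _ => SC_sign _ _ _
  rw [hSt, hS, ← add_sum_erase _ _ hmem, SC_top]
  have e : ∀ a b : ℤ, a + b - a = b := fun a b => by ring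
  rw [e]
  apply dvd_sum
  intro k hk
  rw [mem_erase, mem_range] at hk
  exact Dvd.dvd.mul_left (SC_cube (p := p) h5 k hk.2 hk.1) _

end Pool.Agent.helper60.DB
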